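import Pool.Agent.Q1.SH.Main

/-!
# Schneider's conjecture: canonical `p`-adic heights on the quadratic twists of a fixed curve

`Tw a b d` is the quadratic twist `y² = x³ + a d² x + b d³` by `d` of the fixed elliptic curve
`y² = x³ + a x + b`. `Good W Y` says that the elliptic curve `W` has a rational point of infinite
order whose canonical `p`-adic height is not zero for all primes `5 ≤ p ≤ Y` of good ordinary
reduction, and that Schneider's conjecture holds for `W` at all these primes if the rank is one.
For each sign at least `X ^ (1 / 2 - ε)` of the squarefree `d ≤ X` give twists with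
`Good (Tw a b (± d)) (X ^ (1 / 20 - ε))`.

The proof: the twist by `d = v (u³ + a u v² + b v³)` contains the double of the point
`(u g, g²)`, `g = u³ + a u v² + b v³`; for coprime `u`, `v` with `v` divisible by the bad primes it
is nonsingular modulo all primes, so that the bound of the starting files for the number of the
exceptional parameters in a homogeneous family applies; `d` is squarefree for a positive proportion
of the parameters.
-/

set_option autoImplicit false

namespace Pool.Agent.Results.MP_3550b5_nt.QuadraticTwists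

open Pool.Agent.Q1.SH Finset

lemma Tw_neg (a b d : ℤ) : Tw a b (-1 * d) = Tw a (-b) d := by
  ext <;> simp [Tw]
  ring

open scoped Classical in
theorem result (a b : ℤ) (hab : 4 * a ^ 3 + 27 * b ^ 2 ≠ 0) (ε : ℝ) (hε : 0 < ε) :
    ∃ X₀ : ℝ, ∀ X : ℝ, X₀ ≤ X → ∀ s : ℤ, s = 1 ∨ s = -1 →
      X ^ (1 / 2 - ε) ≤ (((Icc 1 ⌊X⌋).filter fun d : ℤ =>
        Squarefree d ∧ Good (Tw a b (s * d)) (X ^ (1 / 20 - ε))).card : ℝ) := by
  have hab' : 4 * a ^ 3 + 27 * (-b) ^ 2 ≠ 0 := by rwa [neg_sq]
  obtain ⟨X₀, h⟩ := Filter.eventually_atTop.1 ((many a b hab ε hε).and (many a (-b) hab' ε hε))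
  refine ⟨X₀, fun X hX s hs => ?_⟩
  obtain ⟨h1, h2⟩ := h X hX
  rcases hs with rfl | rfl
  · simp only [one_mul]
    exact h1
  · simp only [Tw_neg]
    exact h2

end Pool.Agent.Results.MP_3550b5_nt.QuadraticTwists
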