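import Pool.Agent.Q138.PS.XA
import Pool.Agent.Q138.AJ.R3550b5a
import Pool.Agent.Q138.AJ.R3550b5b

/-!
# Schneider's conjecture: `p`-adic regulators of all members of a family near a given point

A `Family d r` is a Weierstrass equation over `ℤ[t₁, …, t_d]` with sections `P 0 1, …, P 0 r` (homogeneous for some weights);
`F.Marked v` says that at the parameter `v ∈ ℤ ^ d` the member is an elliptic curve and the differences of the sections are in lowest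
terms and nonsingular modulo all primes. `F.NonDeg v p` says that for the canonical `p`-adic heights the regulator of the `r` points is
not zero, and if the rank is `r`, Schneider's conjecture holds.

Let `F_j` (`j ∈ ℕ`) be families with `r ≥ 1` sections whose height pairing over the function field is nondegenerate. Let `w_l > 0` be
any weights, `w_l ≥ m > 0`, `s = ∑ w_l`, and let `H(v) ≥ 1` be a height with `|v_l| ≤ H(v) ^ w_l` (for instance the maximum of the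
`|v_l| ^ (1 / w_l)`). Let `Y` be a metric space, `q` ANY map from `ℤ ^ d` to `Y`, and `τ > 0`.

(1) There is one set `Z ⊆ Y` of Hausdorff dimension at most `(s - m / r) / τ` such that for every `z ∈ Y` outside `Z`, all `j` and `b`
and ALL primes `p ≥ 5`, for all but finitely many of the marked parameters `v` of `F_j` with `dist (q v, z) ≤ b H(v) ^ (-τ)` such that
the member is ordinary at `p`, `F_j.NonDeg v p` holds.

(2) Let `κ ≥ 0`. There is one set `Z ⊆ Y` of Hausdorff dimension at most `(s - m / r + 5 κ) / τ` such that for `z` outside `Z`, all `j`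
and `b`, for all but finitely many marked `v` near `z`, `F_j.NonDeg v p` holds at ALL ordinary primes `5 ≤ p ≤ H(v) ^ κ` at once.

(3), (4) The same for the curves `y² = x³ + A x + B` with a marked integral point `(x, y)`, `B = y² - x³ - A x`: for `v = (A, x, y)`,
the canonical `p`-adic heights of the point do not vanish, and Schneider's conjecture holds if the rank is one; here `r = 1`.

For `q` = the direction of `v` in `ℙ ^ (d - 1) (ℝ)`, `w_l = m = 1` and Dirichlet's exponent `τ = d / (d - 1)` the dimension in (1) is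
`(d - 1) (1 - 1 / (d r))`; for `Y = ℤ_ℓ ^ d`, `τ = 1` it is `d - 1 / r`.
-/

set_option autoImplicit false

namespace Pool.Agent.Results.MP_3550b5_nt.RegulatorsNearGivenPoints

open Pool.Agent.Y732 Pool.Agent.Q138.PS Finset

variable {d r : ℕ}

/-- The marked member at `v` is ordinary at `p`, but the assertion fails. -/
def Bad (F : Family d r) (p : ℕ) (v : Fin d → ℤ) : Prop :=
  F.Marked v ∧ 5 ≤ p ∧ ∃ _ : Fact p.Prime, IsOrdinaryW p (F.curve v) ∧ ¬ F.NonDeg v p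

/-- The curve with the marked integral point `v = (A, x, y)` is ordinary at `p`, but the assertion fails. -/
def BadPoint (p : ℕ) (v : ℤ × ℤ × ℤ) : Prop :=
  Marked v ∧ 5 ≤ p ∧ ∃ _ : Fact p.Prime, IsOrdinary p v.1 (Bf v.1 v.2.1 v.2.2) ∧ ¬ NonDeg p v

/-- a height for given weights -/
def IsHgt (w : Fin d → ℝ) (H : (Fin d → ℤ) → ℝ) : Prop :=
  (∀ v, 1 ≤ H v) ∧ ∀ v l, (|v l| : ℝ) ≤ (H v) ^ (w l)

/-- a height for the weights `w₁`, `w₂`, `w₃` of `A`, `x`, `y` -/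
def IsHgtPoint (w₁ w₂ w₃ : ℝ) (H : ℤ × ℤ × ℤ → ℝ) : Prop :=
  (∀ v, 1 ≤ H v) ∧ ∀ v, (|v.1| : ℝ) ≤ (H v) ^ w₁ ∧ (|v.2.1| : ℝ) ≤ (H v) ^ w₂ ∧ (|v.2.2| : ℝ) ≤ (H v) ^ w₃

theorem side {T a m : ℝ} (hT : 1 ≤ T) (hm : 0 < m) (ha : m ≤ a) : ⌈T ^ m⌉₊ ≤ 2 * ⌊T ^ a⌋₊ + 1 ∧
    ((2 * ⌊T ^ a⌋₊ + 1 : ℕ) : ℝ) ≤ 3 * T ^ a := by
  have h1 : 1 ≤ T ^ a := Real.one_le_rpow hT (by linarith)
  have h2 : T ^ m ≤ T ^ a := Real.rpow_le_rpow_of_exponent_le hT ha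
  have h3 := Nat.floor_le (by linarith : 0 ≤ T ^ a)
  have h4 := Nat.lt_floor_add_one (T ^ a)
  constructor
  · rw [Nat.ceil_le]
    push_cast
    linarith [(Nat.cast_nonneg ⌊T ^ a⌋₊ : (0 : ℝ) ≤ (⌊T ^ a⌋₊ : ℝ))]
  · push_cast
    linarith

theorem mem_side {T a x : ℝ} (n : ℤ) (h : (|n| : ℝ) ≤ x ^ a) (hx : 1 ≤ x) (hxT : x ≤ T) (ha : 0 < a) :
    n ∈ Ico (-(⌊T ^ a⌋₊ : ℤ)) (-(⌊T ^ a⌋₊ : ℤ) + (2 * ⌊T ^ a⌋₊ + 1 : ℕ)) := by
  have h1 : (|n| : ℝ) ≤ T ^ a := h.trans (Real.rpow_le_rpow (by linarith) hxT ha.le)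
  have h2 : n.natAbs ≤ ⌊T ^ a⌋₊ := by
    refine Nat.le_floor ?_
    rw [Nat.cast_natAbs, Int.cast_abs]
    exact h1
  rw [mem_Ico]
  push_cast
  omega

open scoped Classical in
theorem count (F : Family d r) (hr : 0 < r) (hK : F.K.det ≠ 0) (w : Fin d → ℝ) (m : ℝ) (hm : 0 < m)
    (hw : ∀ l, m ≤ w l) (H : (Fin d → ℤ) → ℝ) (hH : IsHgt w H) (T : ℝ) (hT : 1 ≤ T) (S : Finset ℕ)
    (hS : ∀ p ∈ S, p.Prime ∧ 5 ≤ p) (E : Set (Fin d → ℤ)) (hE : ∀ v ∈ E, H v ≤ T ∧ ∃ p ∈ S, Bad F p v) :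
    E.Finite ∧ (E.ncard : ℝ) ≤ (2 ^ d * r * |(F.K.det : ℝ)| * 3 ^ d) * (∑ p ∈ S, (p : ℝ) ^ 4) *
      T ^ ((∑ l, w l) - m / r) := by
  have hT0 : 0 < T := by linarith
  have hr0 : (0 : ℝ) < r := by exact_mod_cast hr
  set c : Fin d → ℤ := fun l => -(⌊T ^ (w l)⌋₊ : ℤ) with hc
  set N : Fin d → ℕ := fun l => 2 * ⌊T ^ (w l)⌋₊ + 1 with hN
  have key := Pool.Agent.Q138.AJ.R3550b5b.result.1 d r F hr hK S hS c N ⌈T ^ m⌉₊ (fun l => (side hT hm (hw l)).1)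
  set B := (Fintype.piFinset fun l => Ico (c l) (c l + N l)).filter fun v => F.Marked v ∧
          ∃ p ∈ S, ∃ _ : Fact p.Prime, IsOrdinaryW p (F.curve v) ∧ ¬ F.NonDeg v p with hB
  have hsub : E ⊆ (B : Set (Fin d → ℤ)) := by
    intro v hv
    obtain ⟨h1, p, hp, h2, h3, h4, h5, h6⟩ := hE v hv
    rw [mem_coe, hB, mem_filter, Fintype.mem_piFinset]
    exact ⟨fun l => mem_side _ (hH.2 v l) (hH.1 v) h1 (lt_of_lt_of_le hm (hw l)), h2, p, hp, h4, h5, h6⟩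
  refine ⟨B.finite_toSet.subset hsub, ?_⟩
  have h1 : (E.ncard : ℝ) ≤ B.card := by
    rw [← Set.ncard_coe_finset]
    exact_mod_cast Set.ncard_le_ncard hsub B.finite_toSet
  have h2 : T ^ (m / r) ≤ ((⌈T ^ m⌉₊ : ℕ) : ℝ) ^ ((1 : ℝ) / r) := by
    calc T ^ (m / r) = (T ^ m) ^ ((1 : ℝ) / r) := by
          rw [← Real.rpow_mul hT0.le]
          congr 1
          ring
      _ ≤ _ := Real.rpow_le_rpow (by positivity) (Nat.le_ceil _) (by positivity)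
  have h3 : (∏ l, (N l : ℝ)) ≤ 3 ^ d * T ^ (∑ l, w l) := by
    calc (∏ l, (N l : ℝ)) ≤ ∏ l, (3 * T ^ (w l)) :=
          Finset.prod_le_prod (fun l _ => Nat.cast_nonneg _) fun l _ => (side hT hm (hw l)).2
      _ = 3 ^ d * T ^ (∑ l, w l) := by
          rw [Finset.prod_mul_distrib, Finset.prod_const, card_univ, Fintype.card_fin,
            Real.rpow_sum_of_pos hT0]
  have h4 : (E.ncard : ℝ) * T ^ (m / r) ≤ 2 ^ d * r * |(F.K.det : ℝ)| * (∑ p ∈ S, (p : ℝ) ^ 4) * (3 ^ d * T ^ (∑ l, w l)) :=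
    calc (E.ncard : ℝ) * T ^ (m / r) ≤ (B.card : ℝ) * ((⌈T ^ m⌉₊ : ℕ) : ℝ) ^ ((1 : ℝ) / r) :=
          mul_le_mul h1 h2 (by positivity) (Nat.cast_nonneg _)
      _ ≤ 2 ^ d * r * |(F.K.det : ℝ)| * (∑ p ∈ S, (p : ℝ) ^ 4) * ∏ l, (N l : ℝ) := key
      _ ≤ _ := mul_le_mul_of_nonneg_left h3 (by positivity)
  rw [Real.rpow_sub hT0, ← mul_div_assoc, le_div_iff₀ (by positivity)]
  calc (E.ncard : ℝ) * T ^ (m / r) ≤ _ := h4
    _ = _ := by ring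

open scoped Classical in
theorem count_point (w₁ w₂ w₃ m : ℝ) (hm : 0 < m) (h₁ : m ≤ w₁) (h₂ : m ≤ w₂) (h₃ : m ≤ w₃) (H : ℤ × ℤ × ℤ → ℝ)
    (hH : IsHgtPoint w₁ w₂ w₃ H) (T : ℝ) (hT : 1 ≤ T) (S : Finset ℕ)
    (hS : ∀ p ∈ S, p.Prime ∧ 5 ≤ p) (E : Set (ℤ × ℤ × ℤ)) (hE : ∀ v ∈ E, H v ≤ T ∧ ∃ p ∈ S, BadPoint p v) :
    E.Finite ∧ (E.ncard : ℝ) ≤ (8 * 27) * (∑ p ∈ S, (p : ℝ) ^ 4) * T ^ ((w₁ + w₂ + w₃) - m) := by
  have hT0 : 0 < T := by linarith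
  have key := Pool.Agent.Q138.AJ.R3550b5a.result.1 S hS ⌈T ^ m⌉₊ (2 * ⌊T ^ w₁⌋₊ + 1) (2 * ⌊T ^ w₂⌋₊ + 1) (2 * ⌊T ^ w₃⌋₊ + 1)
    (-(⌊T ^ w₁⌋₊ : ℤ)) (-(⌊T ^ w₂⌋₊ : ℤ)) (-(⌊T ^ w₃⌋₊ : ℤ)) (side hT hm h₁).1 (side hT hm h₂).1 (side hT hm h₃).1
  set B := ((Ico (-(⌊T ^ w₁⌋₊ : ℤ)) (-(⌊T ^ w₁⌋₊ : ℤ) + (2 * ⌊T ^ w₁⌋₊ + 1 : ℕ))) ×ˢ
    (Ico (-(⌊T ^ w₂⌋₊ : ℤ)) (-(⌊T ^ w₂⌋₊ : ℤ) + (2 * ⌊T ^ w₂⌋₊ + 1 : ℕ))) ×ˢ
    (Ico (-(⌊T ^ w₃⌋₊ : ℤ)) (-(⌊T ^ w₃⌋₊ : ℤ) + (2 * ⌊T ^ w₃⌋₊ + 1 : ℕ)))).filter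
          (fun v : ℤ × ℤ × ℤ => Marked v ∧ ∃ p ∈ S, ∃ _ : Fact p.Prime,
            IsOrdinary p v.1 (Bf v.1 v.2.1 v.2.2) ∧ ¬ NonDeg p v) with hB
  have hsub : E ⊆ (B : Set (ℤ × ℤ × ℤ)) := by
    intro v hv
    obtain ⟨h1, p, hp, h2, h3, h4, h5, h6⟩ := hE v hv
    rw [mem_coe, hB, mem_filter, mem_product, mem_product]
    exact ⟨⟨mem_side _ (hH.2 v).1 (hH.1 v) h1 (lt_of_lt_of_le hm h₁),
      mem_side _ (hH.2 v).2.1 (hH.1 v) h1 (lt_of_lt_of_le hm h₂),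
      mem_side _ (hH.2 v).2.2 (hH.1 v) h1 (lt_of_lt_of_le hm h₃)⟩, h2, p, hp, h4, h5, h6⟩
  refine ⟨B.finite_toSet.subset hsub, ?_⟩
  have h1 : (E.ncard : ℝ) ≤ B.card := by
    rw [← Set.ncard_coe_finset]
    exact_mod_cast Set.ncard_le_ncard hsub B.finite_toSet
  have key' : (B.card : ℝ) * ((⌈T ^ m⌉₊ : ℕ) : ℝ) ≤ 8 * (∑ p ∈ S, (p : ℝ) ^ 4) *
      (((2 * ⌊T ^ w₁⌋₊ + 1 : ℕ) : ℝ) * ((2 * ⌊T ^ w₂⌋₊ + 1 : ℕ) : ℝ) * ((2 * ⌊T ^ w₃⌋₊ + 1 : ℕ) : ℝ)) := by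
    exact_mod_cast key
  have h3 : ((2 * ⌊T ^ w₁⌋₊ + 1 : ℕ) : ℝ) * ((2 * ⌊T ^ w₂⌋₊ + 1 : ℕ) : ℝ) * ((2 * ⌊T ^ w₃⌋₊ + 1 : ℕ) : ℝ) ≤
      27 * T ^ (w₁ + w₂ + w₃) := by
    calc _ ≤ (3 * T ^ w₁) * (3 * T ^ w₂) * (3 * T ^ w₃) :=
          mul_le_mul (mul_le_mul (side hT hm h₁).2 (side hT hm h₂).2 (Nat.cast_nonneg _) (by positivity))
            (side hT hm h₃).2 (Nat.cast_nonneg _) (by positivity)
      _ = 27 * T ^ (w₁ + w₂ + w₃) := by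
          rw [Real.rpow_add hT0, Real.rpow_add hT0]
          ring
  have h4 : (E.ncard : ℝ) * T ^ m ≤ 8 * (∑ p ∈ S, (p : ℝ) ^ 4) * (27 * T ^ (w₁ + w₂ + w₃)) :=
    calc (E.ncard : ℝ) * T ^ m ≤ (B.card : ℝ) * ((⌈T ^ m⌉₊ : ℕ) : ℝ) :=
          mul_le_mul h1 (Nat.le_ceil _) (by positivity) (Nat.cast_nonneg _)
      _ ≤ _ := key'
      _ ≤ _ := mul_le_mul_of_nonneg_left h3 (by positivity)
  rw [Real.rpow_sub hT0, ← mul_div_assoc, le_div_iff₀ (by positivity)]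
  calc (E.ncard : ℝ) * T ^ m ≤ _ := h4
    _ = _ := by ring

theorem primes_mem {T κ x : ℝ} (hx : 1 ≤ x) (hxT : x ≤ T) (hκ : 0 ≤ κ) {p : ℕ} (hp : p.Prime) (h5 : 5 ≤ p)
    (h : (p : ℝ) ≤ x ^ κ) : p ∈ (Icc 5 ⌊T ^ κ⌋₊).filter Nat.Prime := by
  rw [mem_filter, mem_Icc]
  exact ⟨⟨h5, Nat.le_floor (h.trans (Real.rpow_le_rpow (by linarith) hxT hκ))⟩, hp⟩

/-- There is a set of points, of dimension at most `e`, outside of which, for all `j` and `b`, only finitely many `v` near the point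
satisfy `B j v`. -/
def Few {A Y J : Type} [MetricSpace Y] (q : A → Y) (H : A → ℝ) (τ e : ℝ) (B : J → A → Prop) : Prop :=
  ∃ Z : Set Y, dimH Z ≤ ENNReal.ofReal e ∧ ∀ z, z ∉ Z → ∀ (j : J) (b : ℝ),
    {v | dist (q v) z ≤ b * (H v) ^ (-τ) ∧ B j v}.Finite

theorem few {A Y J : Type} [Countable J] [MetricSpace Y] [MeasurableSpace Y] [BorelSpace Y] (q : A → Y) (H : A → ℝ)
    (hH : ∀ v, 1 ≤ H v) (τ e : ℝ) (hτ : 0 < τ) (he : 0 ≤ e) (B : J → A → Prop)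
    (h : ∀ j, ∃ C : ℝ, ∀ T, 1 ≤ T → {s | s ∈ {v | B j v} ∧ H s ≤ T}.Finite ∧
      (({s | s ∈ {v | B j v} ∧ H s ≤ T}).ncard : ℝ) ≤ C * T ^ e) : Few q H τ (e / τ) B := by
  obtain ⟨Z, hZ, hz⟩ := fin_seq q (fun j => {v | B j v}) H hH e he h τ hτ
  refine ⟨Z, hZ, fun z hzZ j b => (hz z hzZ j b).subset ?_⟩
  rintro v ⟨h1, h2⟩
  exact ⟨h2, h1⟩

/-- **Theorem.** -/
theorem result :
    (∀ (d r : ℕ) (F : ℕ → Family d r), 0 < d → 0 < r → (∀ j, (F j).K.det ≠ 0) →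
      ∀ (w : Fin d → ℝ) (m : ℝ), 0 < m → (∀ l, m ≤ w l) → ∀ H : (Fin d → ℤ) → ℝ, IsHgt w H →
      ∀ (Y : Type) [MetricSpace Y] [MeasurableSpace Y] [BorelSpace Y] (q : (Fin d → ℤ) → Y) (τ κ : ℝ), 0 < τ → 0 ≤ κ →
        Few q H τ (((∑ l, w l) - m / r) / τ) (fun (j : ℕ × ℕ) v => Bad (F j.1) j.2 v) ∧
        Few q H τ (((∑ l, w l) - m / r + 5 * κ) / τ)
          (fun (j : ℕ) v => ∃ p : ℕ, (p : ℝ) ≤ (H v) ^ κ ∧ Bad (F j) p v)) ∧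
    (∀ (w₁ w₂ w₃ m : ℝ), 0 < m → m ≤ w₁ → m ≤ w₂ → m ≤ w₃ → ∀ H : ℤ × ℤ × ℤ → ℝ, IsHgtPoint w₁ w₂ w₃ H →
      ∀ (Y : Type) [MetricSpace Y] [MeasurableSpace Y] [BorelSpace Y] (q : ℤ × ℤ × ℤ → Y) (τ κ : ℝ), 0 < τ → 0 ≤ κ →
        Few q H τ (((w₁ + w₂ + w₃) - m) / τ) (fun (p : ℕ) v => BadPoint p v) ∧
        Few q H τ (((w₁ + w₂ + w₃) - m + 5 * κ) / τ)
          (fun (_ : Unit) v => ∃ p : ℕ, (p : ℝ) ≤ (H v) ^ κ ∧ BadPoint p v)) := by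
  classical
  refine ⟨fun d r F hd hr hK w m hm hw H hH Y _ _ _ q τ κ hτ hκ => ?_,
    fun w₁ w₂ w₃ m hm h₁ h₂ h₃ H hH Y _ _ _ q τ κ hτ hκ => ?_⟩
  · have hr1 : (1 : ℝ) ≤ r := by exact_mod_cast hr
    have he : 0 ≤ (∑ l, w l) - m / r := by
      have h1 : w ⟨0, hd⟩ ≤ ∑ l, w l :=
        Finset.single_le_sum (fun l _ => (hm.le.trans (hw l))) (Finset.mem_univ _)
      have h2 : m / r ≤ m := div_le_self hm.le hr1
      linarith [hw ⟨0, hd⟩]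
    constructor
    · refine few q H hH.1 τ _ hτ he _ fun j => ?_
      by_cases hp : j.2.Prime ∧ 5 ≤ j.2
      · refine ⟨(2 ^ d * r * |((F j.1).K.det : ℝ)| * 3 ^ d) * (∑ p ∈ ({j.2} : Finset ℕ), (p : ℝ) ^ 4), fun T hT => ?_⟩
        refine count (F j.1) hr (hK j.1) w m hm hw H hH T hT {j.2} (by
          intro p hp'
          rw [Finset.mem_singleton] at hp'
          rw [hp']
          exact hp) _ ?_
        rintro v ⟨h1, h2⟩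
        exact ⟨h2, j.2, Finset.mem_singleton_self _, h1⟩
      · refine ⟨0, fun T hT => ?_⟩
        have e : {s | s ∈ {v | Bad (F j.1) j.2 v} ∧ H s ≤ T} = ∅ := by
          ext v
          constructor
          · rintro ⟨⟨-, h2, h3, -⟩, -⟩
            exact absurd ⟨h3.out, h2⟩ hp
          · exact fun h => absurd h (Set.notMem_empty v)
        rw [e]
        simp
    · refine few q H hH.1 τ _ hτ (by linarith) _ fun j => ?_
      refine ⟨2 ^ d * r * |((F j).K.det : ℝ)| * 3 ^ d, fun T hT => ?_⟩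
      have hT0 : 0 < T := by linarith
      obtain ⟨h1, h2⟩ := count (F j) hr (hK j) w m hm hw H hH T hT ((Icc 5 ⌊T ^ κ⌋₊).filter Nat.Prime) (by
          intro p hp'
          rw [mem_filter, mem_Icc] at hp'
          exact ⟨hp'.2, hp'.1.1⟩) {s | s ∈ {v | ∃ p : ℕ, (p : ℝ) ≤ (H v) ^ κ ∧ Bad (F j) p v} ∧ H s ≤ T} (by
          rintro v ⟨⟨p, h3, h4⟩, h5⟩
          obtain ⟨h6, h7, h8, h9⟩ := id h4
          exact ⟨h5, p, primes_mem (hH.1 v) h5 hκ h8.out h7 h3, h4⟩)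
      refine ⟨h1, h2.trans ?_⟩
      rw [Real.rpow_add hT0, mul_assoc, mul_comm (T ^ _) (T ^ (5 * κ))]
      exact mul_le_mul_of_nonneg_left (mul_le_mul_of_nonneg_right (sum_fourth T κ hT hκ) (by positivity)) (by positivity)
  · constructor
    · refine few q H hH.1 τ _ hτ (by linarith) _ fun j => ?_
      by_cases hp : j.Prime ∧ 5 ≤ j
      · refine ⟨(8 * 27) * (∑ p ∈ ({j} : Finset ℕ), (p : ℝ) ^ 4), fun T hT => ?_⟩
        refine count_point w₁ w₂ w₃ m hm h₁ h₂ h₃ H hH T hT {j} (by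
          intro p hp'
          rw [Finset.mem_singleton] at hp'
          rw [hp']
          exact hp) _ ?_
        rintro v ⟨h1, h2⟩
        exact ⟨h2, j, Finset.mem_singleton_self _, h1⟩
      · refine ⟨0, fun T hT => ?_⟩
        have e : {s | s ∈ {v | BadPoint j v} ∧ H s ≤ T} = ∅ := by
          ext v
          constructor
          · rintro ⟨⟨-, h2, h3, -⟩, -⟩
            exact absurd ⟨h3.out, h2⟩ hp
          · exact fun h => absurd h (Set.notMem_empty v)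
        rw [e]
        simp
    · refine few q H hH.1 τ _ hτ (by linarith) _ fun _ => ?_
      refine ⟨8 * 27, fun T hT => ?_⟩
      have hT0 : 0 < T := by linarith
      obtain ⟨h1, h2⟩ := count_point w₁ w₂ w₃ m hm h₁ h₂ h₃ H hH T hT ((Icc 5 ⌊T ^ κ⌋₊).filter Nat.Prime) (by
          intro p hp'
          rw [mem_filter, mem_Icc] at hp'
          exact ⟨hp'.2, hp'.1.1⟩) {s | s ∈ {v | ∃ p : ℕ, (p : ℝ) ≤ (H v) ^ κ ∧ BadPoint p v} ∧ H s ≤ T} (by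
          rintro v ⟨⟨p, h3, h4⟩, h5⟩
          obtain ⟨h6, h7, h8, h9⟩ := id h4
          exact ⟨h5, p, primes_mem (hH.1 v) h5 hκ h8.out h7 h3, h4⟩)
      refine ⟨h1, h2.trans ?_⟩
      rw [Real.rpow_add hT0, mul_assoc, mul_comm (T ^ _) (T ^ (5 * κ))]
      exact mul_le_mul_of_nonneg_left (mul_le_mul_of_nonneg_right (sum_fourth T κ hT hκ) (by positivity)) (by positivity)

end Pool.Agent.Results.MP_3550b5_nt.RegulatorsNearGivenPoints
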