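import Pool.Agent.Q138.PS.YF
import Pool.Agent.Q138.PS.WX
import Pool.Agent.Results.MP_3550b5_nt.RegulatorsNearGivenPoints

/-!
# Schneider's conjecture: `p`-adic regulators of the members whose parameters have a size close to a power of a real number

A `Family d r` is a Weierstrass equation over `ℤ[t₁, …, t_d]` with sections `P 0 1, …, P 0 r` (homogeneous for some weights);
`F.Marked v` says that at the parameter `v ∈ ℤ ^ d` the member is an elliptic curve and the differences of the sections are in lowest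
terms and nonsingular modulo all primes. `F.NonDeg v p` says that for the canonical `p`-adic heights the regulator of the `r` points is
not zero, and if the rank is `r`, Schneider's conjecture holds. `Bad F p v`: `v` is marked, `p ≥ 5`, the member is ordinary at `p`, but
`F.NonDeg v p` fails.

Let `F_i` (`i ∈ ℕ`) be families with `r ≥ 1` sections whose height pairing over the function field is nondegenerate, `κ ≥ 0`,
`0 ≤ δ ≤ d - 1`, `l < 1`. There is a set `Z` of real numbers of Hausdorff dimension at most `(1 - 1 / r + δ + 5 κ) / (1 - l)` such that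
for every real `α > 1` outside `Z`, all `i` and `P`, all real algebraic `c > 0`, all integers `j`, all real `D` and all large `N`, for
EVERY integer `q ≥ 1` with `|q - c N ^ j α ^ N| ≤ D (c N ^ j α ^ N) ^ l`: for all but less than `q ^ (d - 1 - δ)` of the marked
parameters `v` with `max |v_k| = q` (of about `2 d (2 q) ^ (d - 1)`), `F_i.NonDeg v p` holds at ALL ordinary primes `5 ≤ p ≤ P` and
`5 ≤ p ≤ q ^ κ` at once. For `d = 1` there is no exception.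
-/

set_option autoImplicit false

namespace Pool.Agent.Results.MP_3550b5_nt.RegulatorsNearPowers

open Filter Pool.Agent.Y732 Pool.Agent.Q138.PS Finset
open Pool.Agent.Results.MP_3550b5_nt.RegulatorsNearGivenPoints (Bad count)

/-- the primes up to `P` and up to `T ^ κ` -/
noncomputable def range (P : ℕ) (T κ : ℝ) : Finset ℕ := (Icc 5 (max ⌊T ^ κ⌋₊ P)).filter Nat.Prime

theorem range_prime (P : ℕ) (T κ : ℝ) : ∀ p ∈ range P T κ, p.Prime ∧ 5 ≤ p := by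
  intro p hp
  rw [range, mem_filter, mem_Icc] at hp
  exact ⟨hp.2, hp.1.1⟩

theorem range_sum (P : ℕ) (T κ : ℝ) (hT : 1 ≤ T) (hκ : 0 ≤ κ) :
    ∑ p ∈ range P T κ, (p : ℝ) ^ 4 ≤ (1 + (P : ℝ) ^ 5) * T ^ (5 * κ) := by
  have h1 : range P T κ ⊆ ((Icc 5 ⌊T ^ κ⌋₊).filter Nat.Prime) ∪ (Icc 5 P) := by
    intro p hp
    rw [range, mem_filter, mem_Icc] at hp
    rw [mem_union, mem_filter, mem_Icc, mem_Icc]
    rcases le_max_iff.1 hp.1.2 with h | h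
    · exact Or.inl ⟨⟨hp.1.1, h⟩, hp.2⟩
    · exact Or.inr ⟨hp.1.1, h⟩
  have h2 : ∑ p ∈ Icc 5 P, (p : ℝ) ^ 4 ≤ (P : ℝ) ^ 5 := by
    calc ∑ p ∈ Icc 5 P, (p : ℝ) ^ 4 ≤ ∑ _p ∈ Icc 5 P, (P : ℝ) ^ 4 :=
          Finset.sum_le_sum fun p hp => pow_le_pow_left₀ (Nat.cast_nonneg _) (by exact_mod_cast (mem_Icc.1 hp).2) 4
      _ = ((Icc 5 P).card : ℝ) * (P : ℝ) ^ 4 := by rw [Finset.sum_const, nsmul_eq_mul]
      _ ≤ (P : ℝ) * (P : ℝ) ^ 4 := by
          refine mul_le_mul_of_nonneg_right ?_ (by positivity)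
          rw [Nat.card_Icc]
          exact_mod_cast (by omega : P + 1 - 5 ≤ P)
      _ = (P : ℝ) ^ 5 := by ring
  have h3 : 1 ≤ T ^ (5 * κ) := Real.one_le_rpow hT (by positivity)
  have h4 : ∑ p ∈ range P T κ, (p : ℝ) ^ 4 ≤ ∑ p ∈ ((Icc 5 ⌊T ^ κ⌋₊).filter Nat.Prime), (p : ℝ) ^ 4 + ∑ p ∈ Icc 5 P, (p : ℝ) ^ 4 := by
    refine (Finset.sum_le_sum_of_subset_of_nonneg h1 fun p _ _ => by positivity).trans ?_
    rw [← Finset.sum_union_inter]
    have : 0 ≤ ∑ p ∈ ((Icc 5 ⌊T ^ κ⌋₊).filter Nat.Prime) ∩ (Icc 5 P), (p : ℝ) ^ 4 :=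
      Finset.sum_nonneg fun p _ => by positivity
    linarith
  have h5 := sum_fourth T κ hT hκ
  have h6 : 0 ≤ (P : ℝ) ^ 5 := by positivity
  calc ∑ p ∈ range P T κ, (p : ℝ) ^ 4 ≤ T ^ (5 * κ) + (P : ℝ) ^ 5 := by linarith
    _ = T ^ (5 * κ) + (P : ℝ) ^ 5 * 1 := by ring
    _ ≤ T ^ (5 * κ) + (P : ℝ) ^ 5 * T ^ (5 * κ) := by gcongr
    _ = (1 + (P : ℝ) ^ 5) * T ^ (5 * κ) := by ring

theorem mem_range' {P p n : ℕ} {T κ : ℝ} (hκ : 0 ≤ κ) (hn : 1 ≤ n) (hnT : (n : ℝ) ≤ T) (hp : p.Prime) (h5 : 5 ≤ p)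
    (h : (p : ℝ) ≤ (n : ℝ) ^ κ ∨ p ≤ P) : p ∈ range P T κ := by
  rw [range, mem_filter, mem_Icc]
  refine ⟨⟨h5, ?_⟩, hp⟩
  rw [le_max_iff]
  rcases h with h | h
  · exact Or.inl (Nat.le_floor (h.trans (Real.rpow_le_rpow (by positivity) hnT hκ)))
  · exact Or.inr h

theorem isize_abs {r : ℕ} (v : Fin r → ℤ) (l : Fin r) : (|v l| : ℝ) ≤ isize v := by
  have h1 := (isize_le v (isize v)).1 le_rfl l
  exact_mod_cast h1

/-- **Theorem.** -/
theorem result (d r : ℕ) (F : ℕ → Family d r) (hd : 0 < d) (hr : 0 < r) (hK : ∀ j, (F j).K.det ≠ 0) (κ δ l : ℝ)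
    (hκ : 0 ≤ κ) (hδ : 0 ≤ δ) (hδ1 : δ ≤ d - 1) (hl : l < 1) :
    ∃ Z : Set ℝ, dimH Z ≤ ENNReal.ofReal ((1 - 1 / r + δ + 5 * κ) / (1 - l)) ∧ ∀ α : ℝ, 1 < α → α ∉ Z →
      ∀ (i P : ℕ) (c : ℝ), 0 < c → IsAlgebraic ℚ c → ∀ (j : ℤ) (D : ℝ), ∀ᶠ N : ℕ in atTop, ∀ q : ℕ, 1 ≤ q →
        NearPow α c j D l N q →
          (({v | isize v = q ∧ ∃ p : ℕ, ((p : ℝ) ≤ (q : ℝ) ^ κ ∨ p ≤ P) ∧ Bad (F i) p v}.ncard : ℕ) : ℝ) <
            (q : ℝ) ^ (d - 1 - δ) := by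
  classical
  have hr1 : (1 : ℝ) ≤ r := by exact_mod_cast hr
  have hr2 : 1 / (r : ℝ) ≤ 1 := by rw [div_le_one (by linarith)]; exact hr1
  have hd1 : (1 : ℝ) ≤ d := by exact_mod_cast hd
  have h0 := (seldom isize (fun (i : ℕ × ℕ) v => 1 ≤ isize v ∧ ∃ p : ℕ, ((p : ℝ) ≤ (isize v : ℝ) ^ κ ∨ p ≤ i.2) ∧
    Bad (F i.1) p v) (d - 1 / r + 5 * κ) (d - 1 - δ) l (by linarith) (by linarith) hl (by
      rintro ⟨i, P⟩ ε hε
      refine ⟨(2 ^ d * r * |((F i).K.det : ℝ)| * 3 ^ d) * (1 + (P : ℝ) ^ 5), fun T hT => ?_⟩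
      have hT0 : 0 < T := by linarith
      obtain ⟨h1, h2⟩ := count (F i) hr (hK i) (fun _ => 1) 1 one_pos (fun _ => le_rfl) (fun v => max 1 (isize v : ℝ))
        ⟨fun v => le_max_left _ _, fun v l => by
          rw [Real.rpow_one]
          exact (isize_abs v l).trans (le_max_right _ _)⟩ T hT (range P T κ) (range_prime P T κ)
        {s | (1 ≤ isize s ∧ ∃ p : ℕ, ((p : ℝ) ≤ (isize s : ℝ) ^ κ ∨ p ≤ P) ∧ Bad (F i) p s) ∧ (isize s : ℝ) ≤ T} (by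
          rintro v ⟨⟨h0, p, h3, h4⟩, h5⟩
          obtain ⟨h6, h7, h8, h9⟩ := id h4
          exact ⟨max_le hT h5, p, mem_range' hκ h0 h5 h8.out h7 h3, h4⟩)
      refine ⟨h1, h2.trans ?_⟩
      have h3 : (∑ _l : Fin d, (1 : ℝ)) = d := by simp
      rw [h3]
      have h4 := range_sum P T κ hT hκ
      have h5 : T ^ ((d : ℝ) - 1 / r + 5 * κ + ε) = T ^ (5 * κ) * T ^ ((d : ℝ) - 1 / r) * T ^ ε := by
        rw [← Real.rpow_add hT0, ← Real.rpow_add hT0]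
        congr 1
        ring
      have h6 : 1 ≤ T ^ ε := Real.one_le_rpow hT hε.le
      rw [h5]
      calc (2 ^ d * r * |((F i).K.det : ℝ)| * 3 ^ d) * (∑ p ∈ range P T κ, (p : ℝ) ^ 4) * T ^ ((d : ℝ) - 1 / r)
          ≤ (2 ^ d * r * |((F i).K.det : ℝ)| * 3 ^ d) * ((1 + (P : ℝ) ^ 5) * T ^ (5 * κ)) * T ^ ((d : ℝ) - 1 / r) := by
            gcongr
        _ = (2 ^ d * r * |((F i).K.det : ℝ)| * 3 ^ d) * (1 + (P : ℝ) ^ 5) * (T ^ (5 * κ) * T ^ ((d : ℝ) - 1 / r) * 1) := by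
            ring
        _ ≤ _ := by gcongr)).1
  have e : (d : ℝ) - 1 / r + 5 * κ - (d - 1 - δ) = 1 - 1 / r + δ + 5 * κ := by ring
  rw [e] at h0
  obtain ⟨Z, hZ, hz⟩ := h0
  refine ⟨Z, hZ, fun α hα hαZ i P c hc hca j D => ?_⟩
  filter_upwards [hz α hα hαZ (i, P) c hc hca j D] with N hN q hq hnear
  have e2 : {v | isize v = q ∧ ∃ p : ℕ, ((p : ℝ) ≤ (q : ℝ) ^ κ ∨ p ≤ P) ∧ Bad (F i) p v} =
      {v | isize v = q ∧ 1 ≤ isize v ∧ ∃ p : ℕ, ((p : ℝ) ≤ (isize v : ℝ) ^ κ ∨ p ≤ P) ∧ Bad (F i) p v} := by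
    ext v
    refine and_congr_right fun h1 => ?_
    rw [h1]
    exact ⟨fun h => ⟨hq, h⟩, fun h => h.2⟩
  rw [e2]
  exact hN q hq hnear

end Pool.Agent.Results.MP_3550b5_nt.RegulatorsNearPowers
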