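import Pool.Agent.Q84.NX.Fam3
import Pool.Agent.Results.MP_3550b5_nt.RegulatorsInFamilies

/-!
# Schneider's conjecture for the members of a family with bad reduction at the primes of a string

A `Family d r` is a Weierstrass equation over `ℤ[t₁, …, t_d]` with sections `P 0 1, …, P 0 r` (homogeneous for some weights);
`F.Marked v` says that at the parameter `v ∈ ℤ ^ d` the member is an elliptic curve and the differences of the sections are
in lowest terms and nonsingular modulo all primes. `F.NonDeg v q` says that for the canonical `q`-adic heights the regulator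
of the `r` points is not zero, and if the rank is `r`, Schneider's conjecture holds.

Let `F` be a family with `d, r ≥ 1` whose height pairing over the function field is nondegenerate, `w_l ≥ μ > 0`, `κ₀ ≥ 0` and
`∑ w_l - μ / r + 5 κ₀ < 1`, and let `G` be an integral polynomial (for instance the discriminant of the family). There is
`c > 0`, for all `κ > 0` and `m` there is `c' > 0` and for every `Z` a number `D` with the following property. For every large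
`X` there is a set `S` of at most `(log X) ^ (49 / 50)` primes, all larger than `Z`, such that for EVERY function `f` with
values `1` and `-1` on the primes at least `X ^ (1 - κ)` integers `n`, `X < n ≤ 3X`, satisfy: the interval `[n, n + D]`
contains at least `m` primes, and for every prime `p` in it

* the Legendre symbol `(p / q)` is `f q` for all odd primes `q ≤ c' log X` outside `S`;
* for ALL marked `v ∈ ℤ ^ d` with `|v_l| ≤ p ^ (w_l)` and `G(v) ≠ 0` such that some divisor `s` of `G(v)` is within `p ^ c`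
  of a positive multiple of `p` (for instance: `p` divides the discriminant) and ALL ordinary primes `5 ≤ q ≤ p ^ κ₀` the
  assertion `F.NonDeg v q` holds.

Method: the starting result `RegulatorsInFamilies` bounds the number of exceptions in boxes; the divisor bound; few primes
divide a number near a divisor of one of the values of `G` at the exceptions (`Q84/NX/Core`, `Q84/NX/TriJ`); the Maynard-Tao
theorem relative to a modulus which is a small power of `X`, in the form that it avoids arbitrary exceptional sets of size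
`X ^ (1 - η)` (`Q84/MB/E1-E4`), gives the strings.
-/

set_option autoImplicit false

open scoped Classical

namespace Pool.Agent.Results.MP_3550b5_nt.StringsOfPrimes

open Finset Filter
open Pool.Agent.Y732

variable {d r : ℕ}

/-- for all marked `v` with `|v_l| ≤ p ^ (w_l)`, for which `G(v) ≠ 0` has a divisor `s` within `p ^ c` of a positive multiple
of `p`, and all ordinary primes `5 ≤ q ≤ p ^ κ₀` the `q`-adic regulator is not degenerate -/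
def Fine (F : Family d r) (G : MvPolynomial (Fin d) ℤ) (w : Fin d → ℝ) (κ₀ c : ℝ) (p : ℕ) : Prop :=
  ∀ (v : Fin d → ℤ) (q k s : ℕ), (∀ l, |(v l : ℝ)| ≤ (p : ℝ) ^ (w l)) → F.Marked v → MvPolynomial.eval v G ≠ 0 →
    1 ≤ k → |(s : ℝ) - k * p| ≤ (p : ℝ) ^ c → (s : ℤ) ∣ MvPolynomial.eval v G →
    5 ≤ q → (q : ℝ) ≤ (p : ℝ) ^ κ₀ → ∀ _ : Fact q.Prime, IsOrdinaryW q (F.curve v) → F.NonDeg v q

/-- the exceptions at the scale `B` -/
def Exc (F : Family d r) (G : MvPolynomial (Fin d) ℤ) (w : Fin d → ℝ) (κ₀ : ℝ) (B : ℝ) : Set (Fin d → ℤ) :=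
  {v | 1 ≤ B ∧ (∀ l, |(v l : ℝ)| ≤ B ^ (w l)) ∧ MvPolynomial.eval v G ≠ 0 ∧ F.Marked v ∧
    ∃ q : ℕ, 5 ≤ q ∧ (q : ℝ) ≤ B ^ κ₀ ∧ ∃ _ : Fact q.Prime, IsOrdinaryW q (F.curve v) ∧ ¬ F.NonDeg v q}

/-- polynomial growth of the values of a polynomial -/
theorem growth (G : MvPolynomial (Fin d) ℤ) (w : Fin d → ℝ) : ∃ (J : ℕ) (B₀ : ℝ), 1 ≤ J ∧ ∀ B : ℝ, B₀ ≤ B → 1 ≤ B →
    ∀ v : Fin d → ℤ, (∀ l, |(v l : ℝ)| ≤ B ^ (w l)) → (((MvPolynomial.eval v G).natAbs : ℕ) : ℝ) ≤ B ^ J := by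
  obtain ⟨M, hM⟩ : ∃ M : ℕ, ∀ l, w l ≤ M := by
    refine ⟨∑ l, ⌈w l⌉₊, fun l => (Nat.le_ceil (w l)).trans ?_⟩
    exact_mod_cast Finset.single_le_sum (f := fun l => ⌈w l⌉₊) (fun _ _ => Nat.zero_le _) (mem_univ l)
  obtain ⟨Co, hCo⟩ : ∃ Co : ℝ, Co = ∑ e ∈ G.support, |((G.coeff e : ℤ) : ℝ)| := ⟨_, rfl⟩
  refine ⟨M * G.totalDegree + 1, Co, by omega, fun B hB hB1 v hv => ?_⟩
  have hB0 : 0 < B := by linarith
  have hvM : ∀ l, |(v l : ℝ)| ≤ B ^ M := by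
    intro l
    refine (hv l).trans ?_
    rw [← Real.rpow_natCast B M]
    exact Real.rpow_le_rpow_of_exponent_le hB1 (hM l)
  have hBM : 1 ≤ B ^ M := one_le_pow₀ hB1
  have h1 : (((MvPolynomial.eval v G).natAbs : ℕ) : ℝ) = |((MvPolynomial.eval v G : ℤ) : ℝ)| := by
    rw [Nat.cast_natAbs, Int.cast_abs]
  rw [h1, MvPolynomial.eval_eq']
  push_cast
  calc |∑ e ∈ G.support, ((G.coeff e : ℤ) : ℝ) * ∏ i, (v i : ℝ) ^ (e i)|
      ≤ ∑ e ∈ G.support, |((G.coeff e : ℤ) : ℝ) * ∏ i, (v i : ℝ) ^ (e i)| := Finset.abs_sum_le_sum_abs _ _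
    _ ≤ ∑ e ∈ G.support, |((G.coeff e : ℤ) : ℝ)| * B ^ (M * G.totalDegree) := by
        apply Finset.sum_le_sum
        intro e he
        rw [abs_mul]
        apply mul_le_mul_of_nonneg_left _ (abs_nonneg _)
        rw [Finset.abs_prod]
        calc ∏ i, |(v i : ℝ) ^ (e i)| ≤ ∏ i, (B ^ M) ^ (e i) := by
              apply Finset.prod_le_prod (fun i _ => abs_nonneg _)
              intro i _
              rw [abs_pow]
              exact pow_le_pow_left₀ (abs_nonneg _) (hvM i) _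
          _ = (B ^ M) ^ (∑ i, e i) := by rw [Finset.prod_pow_eq_pow_sum]
          _ ≤ (B ^ M) ^ G.totalDegree := by
              apply pow_le_pow_right₀ hBM
              have h2 := MvPolynomial.le_totalDegree he
              rwa [Finsupp.sum_fintype _ _ (fun _ => rfl)] at h2
          _ = B ^ (M * G.totalDegree) := by rw [pow_mul]
    _ = Co * B ^ (M * G.totalDegree) := by rw [← Finset.sum_mul, hCo]
    _ ≤ B * B ^ (M * G.totalDegree) := mul_le_mul_of_nonneg_right hB (by positivity)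
    _ = B ^ (M * G.totalDegree + 1) := by rw [pow_succ]; ring

/-- the number of exceptions -/
theorem count (F : Family d r) (hd : 0 < d) (hr : 0 < r) (hK : F.K.det ≠ 0) (G : MvPolynomial (Fin d) ℤ) (w : Fin d → ℝ)
    (μ κ₀ : ℝ) (hμ : 0 < μ) (hw : ∀ l, μ ≤ w l) (hκ₀ : 0 ≤ κ₀) (B : ℝ) (hB : 1 ≤ B) :
    (Exc F G w κ₀ B).Finite ∧ ((Exc F G w κ₀ B).ncard : ℝ) ≤
      (2 ^ d * r * |(F.K.det : ℝ)| * 3 ^ d) * B ^ ((∑ l, w l) - μ / r + 5 * κ₀) := by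
  have hB0 : 0 < B := by linarith
  have hr0 : (0 : ℝ) < r := by exact_mod_cast hr
  obtain ⟨S, hSdef⟩ : ∃ S, S = (Icc 5 ⌊B ^ κ₀⌋₊).filter Nat.Prime := ⟨_, rfl⟩
  have hS : ∀ p ∈ S, p.Prime ∧ 5 ≤ p := by
    intro p hp
    rw [hSdef, mem_filter, mem_Icc] at hp
    exact ⟨hp.2, hp.1.1⟩
  have hBκ : 1 ≤ B ^ κ₀ := Real.one_le_rpow hB hκ₀
  have hSsum : ∑ p ∈ S, (p : ℝ) ^ 4 ≤ B ^ (5 * κ₀) := by
    have h1 : ∀ p ∈ S, (p : ℝ) ^ 4 ≤ (B ^ κ₀) ^ 4 := by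
      intro p hp
      rw [hSdef, mem_filter, mem_Icc] at hp
      apply pow_le_pow_left₀ (Nat.cast_nonneg p)
      exact (Nat.cast_le.2 hp.1.2).trans (Nat.floor_le (by linarith))
    have h2 : (S.card : ℝ) ≤ B ^ κ₀ := by
      have h3 : S.card ≤ ⌊B ^ κ₀⌋₊ := by
        rw [hSdef]
        refine (card_filter_le _ _).trans ?_
        rw [Nat.card_Icc]
        omega
      exact (Nat.cast_le.2 h3).trans (Nat.floor_le (by linarith))
    calc ∑ p ∈ S, (p : ℝ) ^ 4 ≤ S.card • (B ^ κ₀) ^ 4 := Finset.sum_le_card_nsmul _ _ _ h1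
      _ = S.card * (B ^ κ₀) ^ 4 := nsmul_eq_mul _ _
      _ ≤ B ^ κ₀ * (B ^ κ₀) ^ 4 := mul_le_mul_of_nonneg_right h2 (by positivity)
      _ = (B ^ κ₀) ^ 5 := by ring
      _ = B ^ (5 * κ₀) := by
        rw [← Real.rpow_natCast (B ^ κ₀) 5, ← Real.rpow_mul hB0.le]
        congr 1
        push_cast
        ring
  obtain ⟨c, hc⟩ : ∃ c : Fin d → ℤ, c = fun l => -(⌊B ^ (w l)⌋₊ : ℤ) := ⟨_, rfl⟩
  obtain ⟨N, hN⟩ : ∃ N : Fin d → ℕ, N = fun l => 2 * ⌊B ^ (w l)⌋₊ + 1 := ⟨_, rfl⟩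
  have hside : ∀ l, ⌈B ^ μ⌉₊ ≤ N l ∧ ((N l : ℕ) : ℝ) ≤ 3 * B ^ (w l) := by
    intro l
    have h1 : 1 ≤ B ^ (w l) := Real.one_le_rpow hB (by linarith [hw l])
    have h2 : B ^ μ ≤ B ^ (w l) := Real.rpow_le_rpow_of_exponent_le hB (hw l)
    have h3 := Nat.floor_le (by linarith : 0 ≤ B ^ (w l))
    have h4 := Nat.lt_floor_add_one (B ^ (w l))
    rw [hN]
    constructor
    · rw [Nat.ceil_le]
      push_cast
      linarith [(Nat.cast_nonneg ⌊B ^ (w l)⌋₊ : (0 : ℝ) ≤ (⌊B ^ (w l)⌋₊ : ℝ))]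
    · push_cast
      linarith
  have key := RegulatorsInFamilies.result.1 d r F hr hK S hS c N ⌈B ^ μ⌉₊ (fun l => (hside l).1)
  obtain ⟨Bx, hBx⟩ : ∃ Bx, Bx = (Fintype.piFinset fun l => Ico (c l) (c l + N l)).filter fun v => F.Marked v ∧
          ∃ p ∈ S, ∃ _ : Fact p.Prime, IsOrdinaryW p (F.curve v) ∧ ¬ F.NonDeg v p := ⟨_, rfl⟩
  rw [← hBx] at key
  have hsub : Exc F G w κ₀ B ⊆ (Bx : Set (Fin d → ℤ)) := by
    rintro v ⟨-, h1, -, h3, q, h4, h5, h6, h7, h8⟩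
    rw [mem_coe, hBx, mem_filter, Fintype.mem_piFinset]
    refine ⟨fun l => ?_, h3, q, ?_, h6, h7, h8⟩
    · have h9 : (v l).natAbs ≤ ⌊B ^ (w l)⌋₊ := by
        refine Nat.le_floor ?_
        rw [Nat.cast_natAbs, Int.cast_abs]
        exact h1 l
      rw [mem_Ico, hc, hN]
      push_cast
      omega
    · rw [hSdef, mem_filter, mem_Icc]
      exact ⟨⟨h4, Nat.le_floor h5⟩, h6.out⟩
  refine ⟨Bx.finite_toSet.subset hsub, ?_⟩
  have h1 : ((Exc F G w κ₀ B).ncard : ℝ) ≤ Bx.card := by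
    rw [← Set.ncard_coe_finset]
    exact_mod_cast Set.ncard_le_ncard hsub Bx.finite_toSet
  have h2 : B ^ (μ / r) ≤ ((⌈B ^ μ⌉₊ : ℕ) : ℝ) ^ ((1 : ℝ) / r) := by
    calc B ^ (μ / r) = (B ^ μ) ^ ((1 : ℝ) / r) := by
          rw [← Real.rpow_mul hB0.le]
          congr 1
          ring
      _ ≤ _ := Real.rpow_le_rpow (by positivity) (Nat.le_ceil _) (by positivity)
  have h3 : (∏ l, (N l : ℝ)) ≤ 3 ^ d * B ^ (∑ l, w l) := by
    calc (∏ l, (N l : ℝ)) ≤ ∏ l, (3 * B ^ (w l)) :=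
          Finset.prod_le_prod (fun l _ => Nat.cast_nonneg _) fun l _ => (hside l).2
      _ = 3 ^ d * B ^ (∑ l, w l) := by
          rw [Finset.prod_mul_distrib, Finset.prod_const, card_univ, Fintype.card_fin,
            Real.rpow_sum_of_pos hB0]
  have hPos : 0 ≤ 2 ^ d * r * |(F.K.det : ℝ)| := by positivity
  have h4 : ((Exc F G w κ₀ B).ncard : ℝ) * B ^ (μ / r) ≤
      2 ^ d * r * |(F.K.det : ℝ)| * B ^ (5 * κ₀) * (3 ^ d * B ^ (∑ l, w l)) :=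
    calc ((Exc F G w κ₀ B).ncard : ℝ) * B ^ (μ / r) ≤ (Bx.card : ℝ) * ((⌈B ^ μ⌉₊ : ℕ) : ℝ) ^ ((1 : ℝ) / r) :=
          mul_le_mul h1 h2 (by positivity) (Nat.cast_nonneg _)
      _ ≤ 2 ^ d * r * |(F.K.det : ℝ)| * (∑ p ∈ S, (p : ℝ) ^ 4) * ∏ l, (N l : ℝ) := key
      _ ≤ 2 ^ d * r * |(F.K.det : ℝ)| * B ^ (5 * κ₀) * (3 ^ d * B ^ (∑ l, w l)) := by
          apply mul_le_mul _ h3 (Finset.prod_nonneg fun l _ => Nat.cast_nonneg _) (by positivity)
          exact mul_le_mul_of_nonneg_left hSsum hPos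
  have h5 : B ^ ((∑ l, w l) - μ / r + 5 * κ₀) = B ^ (∑ l, w l) * B ^ (5 * κ₀) / B ^ (μ / r) := by
    rw [Real.rpow_add hB0, Real.rpow_sub hB0]
    ring
  rw [h5, ← mul_div_assoc, le_div_iff₀ (by positivity)]
  calc ((Exc F G w κ₀ B).ncard : ℝ) * B ^ (μ / r) ≤ _ := h4
    _ = _ := by ring

/-- **Theorem.** -/
theorem result (F : Family d r) (hd : 0 < d) (hr : 0 < r) (hK : F.K.det ≠ 0) (G : MvPolynomial (Fin d) ℤ)
    (w : Fin d → ℝ) (μ κ₀ : ℝ) (hμ : 0 < μ) (hw : ∀ l, μ ≤ w l) (hκ₀ : 0 ≤ κ₀) (hlt : (∑ l, w l) - μ / r + 5 * κ₀ < 1) :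
    ∃ c : ℝ, 0 < c ∧
    ∀ κ : ℝ, 0 < κ → ∀ m : ℕ, ∃ c' : ℝ, 0 < c' ∧
    ∀ Z : ℕ, ∃ D : ℕ, ∃ X₀ : ℝ, ∀ X : ℝ, X₀ ≤ X →
    ∃ S : Finset ℕ, (∀ q ∈ S, q.Prime ∧ Z < q) ∧ (S.card : ℝ) ≤ (Real.log X) ^ (49 / 50 : ℝ) ∧
    ∀ f : ℕ → ℤ, (∀ q, f q = 1 ∨ f q = -1) →
      X ^ (1 - κ) ≤ (((Icc 1 ⌊3 * X⌋₊).filter fun n : ℕ => X < n ∧
        m ≤ ((Icc n (n + D)).filter Nat.Prime).card ∧
        ∀ p ∈ Icc n (n + D), p.Prime → Fine F G w κ₀ c p ∧
          ∀ q : ℕ, q.Prime → q ≠ 2 → (q : ℝ) ≤ c' * Real.log X → q ∉ S → jacobiSym p q = f q).card : ℝ) := by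
  have hr1 : (1 : ℝ) ≤ r := by exact_mod_cast hr
  obtain ⟨γ, hγ⟩ : ∃ γ, γ = (∑ l, w l) - μ / r + 5 * κ₀ := ⟨_, rfl⟩
  have hγ0 : 0 ≤ γ := by
    have h1 : μ ≤ ∑ l, w l := by
      have h2 : w ⟨0, hd⟩ ≤ ∑ l, w l :=
        Finset.single_le_sum (fun l _ => by linarith [hw l]) (mem_univ _)
      linarith [hw ⟨0, hd⟩]
    have h3 : μ / r ≤ μ := div_le_self hμ.le hr1
    rw [hγ]
    linarith
  obtain ⟨J, B₀, hJ, hgrow⟩ := growth G w
  have hmono : ∀ B B' : ℝ, B ≤ B' → Exc F G w κ₀ B ⊆ Exc F G w κ₀ B' := by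
    rintro B B' hBB v ⟨h1, h2, h3, h4, q, h5, h6, h7⟩
    have hB0 : 0 ≤ B := by linarith
    exact ⟨h1.trans hBB, fun l => (h2 l).trans (Real.rpow_le_rpow hB0 hBB (by linarith [hw l])), h3, h4, q, h5,
      h6.trans (Real.rpow_le_rpow hB0 hBB hκ₀), h7⟩
  obtain ⟨c, hc, hc4, hmain⟩ := Pool.Agent.Q84.NX.obj_strings (Exc F G w κ₀) hmono
    (fun v : Fin d → ℤ => (MvPolynomial.eval v G).natAbs) J hJ B₀ (by
      rintro B hB v ⟨h1, h2, h3, -⟩
      exact ⟨Int.natAbs_pos.2 h3, hgrow B hB h1 v h2⟩) 1 γ (2 ^ d * r * |(F.K.det : ℝ)| * 3 ^ d) one_pos hγ0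
    (by rw [one_mul, hγ]; exact hlt) (fun B hB => by rw [hγ]; exact count F hd hr hK G w μ κ₀ hμ hw hκ₀ B hB)
  refine ⟨c, hc, fun κ hκ m => ?_⟩
  obtain ⟨c', hc', h⟩ := hmain κ hκ m
  refine ⟨c', hc', fun Z => ?_⟩
  obtain ⟨D, X₀, hX₀⟩ := h Z
  refine ⟨D, X₀, fun X hX => ?_⟩
  obtain ⟨S, hS1, hS2, hS3⟩ := hX₀ X hX
  refine ⟨S, hS1, hS2, fun f hf => (hS3 f hf).trans ?_⟩
  rw [Nat.cast_le]
  apply card_le_card
  intro n hn
  rw [mem_filter] at hn ⊢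
  obtain ⟨hn1, hn2, hn3, hn4⟩ := hn
  refine ⟨hn1, hn2, hn3, fun p hp hpp => ⟨?_, (hn4 p hp hpp).2⟩⟩
  have hgood := (hn4 p hp hpp).1
  have hp1 : (1 : ℝ) ≤ p := by exact_mod_cast hpp.one_lt.le
  intro v q k s hv hm hG hk hks hs hq5 hqκ hq hord
  by_contra hno
  refine hgood v ?_ k s hk hks ?_
  · rw [Real.rpow_one]
    exact ⟨hp1, hv, hG, hm, q, hq5, hqκ, hq, hord, hno⟩
  · exact Int.natCast_dvd.1 hs

end Pool.Agent.Results.MP_3550b5_nt.StringsOfPrimes
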